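import Pool.Agent.N299.PX.Stm
import Pool.Agent.N340.ND.AU

/-!
# Project PX, task RR: more copies
-/

set_option autoImplicit false

noncomputable section

namespace Pool.Agent.N297.PX

open Pool.Agent.N299 Pool.Agent.N299.ND Pool.Agent.N299.PX

variable {B : Type} [CStarAlgebra B] {I : Submodule ℂ B} {b : B}

/-- rows for one element and finite index types -/
def RT (I : Submodule ℂ B) (b : B) (al be : Type) [Fintype al] [DecidableEq be] : Prop :=
  ∀ ε : ℝ, 0 < ε → ∃ r : al → be → B, (∀ l q, r l q ∈ I) ∧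
    ∀ q q', ‖∑ l, star (r l q) * b * r l q' - (if q = q' then b else 0)‖ ≤ ε

theorem RT.restrict {al be be' : Type} [Fintype al] [DecidableEq be] [DecidableEq be']
    (h : RT I b al be) (f : be' → be) (hf : Function.Injective f) : RT I b al be' := by
  intro ε hε
  obtain ⟨r, hr, h1⟩ := h ε hε
  refine ⟨fun l q => r l (f q), fun l q => hr l _, fun q q' => ?_⟩
  have h2 := h1 (f q) (f q')
  simpa only [hf.eq_iff] using h2

theorem RT.comp {ga al be : Type} [Fintype ga] [Fintype al] [Fintype be] [DecidableEq al]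
    [DecidableEq be] (hI : Idl I) (hX : RT I b ga al) (hY : RT I b al be) : RT I b ga be := by
  intro ε hε
  obtain ⟨Y, hYI, hY1⟩ := hY (ε / 2) (by positivity)
  obtain ⟨M, hM⟩ : ∃ M : ℝ, M = 1 + ∑ q, ∑ m, ‖Y m q‖ := ⟨_, rfl⟩
  have hnn : ∀ q, 0 ≤ ∑ m, ‖Y m q‖ := fun q => Finset.sum_nonneg fun m _ => norm_nonneg _
  have hMq : ∀ q, ∑ m, ‖Y m q‖ ≤ M := fun q => by
    have h1 := Finset.single_le_sum (f := fun q => ∑ m, ‖Y m q‖) (fun q _ => hnn q)
      (Finset.mem_univ q)
    rw [hM]
    linarith
  have hM1 : 1 ≤ M := by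
    have h1 : 0 ≤ ∑ q, ∑ m, ‖Y m q‖ := Finset.sum_nonneg fun q _ => hnn q
    rw [hM]
    linarith
  have hM0 : 0 < M := by linarith
  obtain ⟨X, hXI, hX1⟩ := hX (ε / (2 * M ^ 2)) (by positivity)
  refine ⟨fun l q => ∑ m, X l m * Y m q,
    fun l q => I.sum_mem fun m _ => hI.mulL _ (hYI m q) _, fun q q' => ?_⟩
  have e1 : ∑ l, star (∑ m, X l m * Y m q) * b * (∑ m', X l m' * Y m' q') =
      ∑ m, ∑ m', star (Y m q) * (∑ l, star (X l m) * b * X l m') * Y m' q' := by
    have h1 : ∀ l, star (∑ m, X l m * Y m q) * b * (∑ m', X l m' * Y m' q') =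
        ∑ m, ∑ m', star (Y m q) * (star (X l m) * b * X l m') * Y m' q' := by
      intro l
      rw [star_sum, Finset.sum_mul, Finset.sum_mul]
      refine Finset.sum_congr rfl fun m _ => ?_
      rw [Finset.mul_sum]
      refine Finset.sum_congr rfl fun m' _ => ?_
      rw [star_mul]
      simp only [mul_assoc]
    rw [Finset.sum_congr rfl fun l _ => h1 l, Finset.sum_comm]
    refine Finset.sum_congr rfl fun m _ => ?_
    rw [Finset.sum_comm]
    refine Finset.sum_congr rfl fun m' _ => ?_
    rw [Finset.mul_sum, Finset.sum_mul]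
  have e2 : ∑ l, star (Y l q) * b * Y l q' =
      ∑ m, ∑ m', star (Y m q) * (if m = m' then b else 0) * Y m' q' := by
    refine Finset.sum_congr rfl fun m _ => ?_
    rw [Finset.sum_eq_single m]
    · rw [if_pos rfl]
    · intro m' _ hm'
      rw [if_neg hm'.symm, mul_zero, zero_mul]
    · intro h
      exact absurd (Finset.mem_univ m) h
  have e3 : ‖∑ l, star (∑ m, X l m * Y m q) * b * (∑ m', X l m' * Y m' q') -
      ∑ l, star (Y l q) * b * Y l q'‖ ≤ ε / 2 := by
    rw [e1, e2, ← Finset.sum_sub_distrib]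
    have h1 : ∀ m, ‖∑ m', star (Y m q) * (∑ l, star (X l m) * b * X l m') * Y m' q' -
        ∑ m', star (Y m q) * (if m = m' then b else 0) * Y m' q'‖ ≤
        ‖Y m q‖ * (ε / (2 * M ^ 2) * M) := by
      intro m
      rw [← Finset.sum_sub_distrib]
      have h2 : ∀ m', ‖star (Y m q) * (∑ l, star (X l m) * b * X l m') * Y m' q' -
          star (Y m q) * (if m = m' then b else 0) * Y m' q'‖ ≤
          ‖Y m q‖ * (ε / (2 * M ^ 2)) * ‖Y m' q'‖ := by
        intro m'
        rw [← sub_mul, ← mul_sub]
        refine (norm_mul_le _ _).trans (mul_le_mul_of_nonneg_right ?_ (norm_nonneg _))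
        refine (norm_mul_le _ _).trans ?_
        rw [norm_star]
        exact mul_le_mul_of_nonneg_left (hX1 m m') (norm_nonneg _)
      refine (norm_sum_le _ _).trans ((Finset.sum_le_sum fun m' _ => h2 m').trans ?_)
      rw [← Finset.mul_sum, mul_assoc]
      refine mul_le_mul_of_nonneg_left ?_ (norm_nonneg _)
      exact mul_le_mul_of_nonneg_left (hMq q') (by positivity)
    refine (norm_sum_le _ _).trans ((Finset.sum_le_sum fun m _ => h1 m).trans ?_)
    rw [← Finset.sum_mul]
    calc (∑ m, ‖Y m q‖) * (ε / (2 * M ^ 2) * M) ≤ M * (ε / (2 * M ^ 2) * M) :=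
          mul_le_mul_of_nonneg_right (hMq q) (by positivity)
      _ = ε / 2 := by field_simp
  have e4 := norm_add_le (∑ l, star (∑ m, X l m * Y m q) * b * (∑ m', X l m' * Y m' q') -
      ∑ l, star (Y l q) * b * Y l q') (∑ l, star (Y l q) * b * Y l q' - (if q = q' then b else 0))
  rw [sub_add_sub_cancel] at e4
  have e5 := hY1 q q'
  linarith

theorem RT.sum {al be al' be' : Type} [Fintype al] [Fintype al'] [DecidableEq be]
    [DecidableEq be'] (h : RT I b al be) (h' : RT I b al' be') :
    RT I b (al ⊕ al') (be ⊕ be') := by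
  intro ε hε
  obtain ⟨r, hr, h1⟩ := h ε hε
  obtain ⟨r', hr', h1'⟩ := h' ε hε
  refine ⟨Sum.elim (fun l => Sum.elim (fun q => r l q) (fun _ => 0))
    (fun l => Sum.elim (fun _ => 0) (fun q => r' l q)), ?_, ?_⟩
  · rintro (l | l) (q | q)
    · exact hr l q
    · exact I.zero_mem
    · exact I.zero_mem
    · exact hr' l q
  · rintro (q | q) (q' | q')
    · rw [Fintype.sum_sum_type]
      simpa using h1 q q'
    · rw [Fintype.sum_sum_type]
      simpa using hε.le
    · rw [Fintype.sum_sum_type]
      simpa using hε.le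
    · rw [Fintype.sum_sum_type]
      simpa using h1' q q'

theorem RT.one (hI : Idl I) (hb : b ∈ I) {ga : Type} [Fintype ga] [DecidableEq ga] :
    RT I b ga ga := by
  intro ε hε
  obtain ⟨e, heI, heP, heP1, he⟩ := Pool.Agent.N340.ND.t_AU B I hI {b} (ε / 2)
    (by simpa using hb) (by positivity)
  obtain ⟨he1, he2⟩ := he b (Finset.mem_singleton_self b)
  have hen : ‖e‖ ≤ 1 := by
    let _ : PartialOrder B := CStarAlgebra.spectralOrder B
    let _ : StarOrderedRing B := CStarAlgebra.spectralOrderedRing B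
    rw [pos_iff] at heP heP1
    exact (CStarAlgebra.norm_le_one_iff_of_nonneg e heP).2 (sub_nonneg.1 heP1)
  have hes : star e = e := heP.sa
  have key : ‖e * b * e - b‖ ≤ ε := by
    have h1 : e * b * e - b = (e * b - b) * e + (b * e - b) := by noncomm_ring
    rw [h1]
    refine (norm_add_le _ _).trans ?_
    have h2 : ‖(e * b - b) * e‖ ≤ ε / 2 * 1 :=
      (norm_mul_le _ _).trans (mul_le_mul he1 hen (norm_nonneg _) (by positivity))
    linarith
  refine ⟨fun l q => if l = q then e else 0, fun l q => ?_, fun q q' => ?_⟩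
  · dsimp only
    split_ifs
    · exact heI
    · exact I.zero_mem
  · dsimp only
    by_cases hq : q = q'
    · subst hq
      rw [if_pos rfl, Finset.sum_eq_single q]
      · rw [if_pos rfl, hes]
        exact key
      · intro l _ hl
        rw [if_neg hl, mul_zero]
      · intro h
        exact absurd (Finset.mem_univ q) h
    · rw [if_neg hq, Finset.sum_eq_zero, sub_zero, norm_zero]
      · exact hε.le
      · intro l _
        by_cases hl : l = q
        · rw [if_neg (show ¬ l = q' by rw [hl]; exact hq), mul_zero]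
        · rw [if_neg hl, star_zero, zero_mul, zero_mul]

/-- more copies -/
theorem t_RR : S_RR := by
  intro B _ I hI n hn h K b hb hP
  have h0 : RT I b (Fin n) (Fin n ⊕ Fin n) := by
    have h1 : RT I b (Fin n) (Fin (2 * n)) := h b hb hP
    refine h1.restrict (fun s => Fin.cast (by omega) (finSumFinEquiv s)) ?_
    intro s t hst
    exact finSumFinEquiv.injective (Fin.cast_injective _ hst)
  have hK : ∀ j, RT I b (Fin n) (Fin j) := by
    intro j
    induction j with
    | zero =>
      intro ε _
      exact ⟨fun _ q => q.elim0, fun _ q => q.elim0, fun q => q.elim0⟩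
    | succ j ih =>
      have h2 : RT I b (Fin n) (Fin j ⊕ Fin n) := h0.comp hI (ih.sum (RT.one hI hb))
      refine h2.restrict (fun s : Fin (j + 1) =>
        Sum.map id (fun _ : Fin 1 => (⟨0, hn⟩ : Fin n)) (finSumFinEquiv.symm s)) ?_
      exact (Function.Injective.sumMap Function.injective_id
        (Function.injective_of_subsingleton _)).comp finSumFinEquiv.symm.injective
  exact hK K

end Pool.Agent.N297.PX
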